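import Mathlib
import Pool.Agent.X218.BV.Vershik

/-!
# MP_f8f5a4_an, Q1 (positive answer)

Every generalized Bratteli diagram admits an order that generates a Borel Vershik map.
-/

set_option linter.style.haveILetI false

open Set Filter Topology MeasureTheory

namespace Pool.Agent.Results.MP_f8f5a4_an.BorelVershikOrder

open Pool.Agent.X218.BV

/-- An order on a diagram: a family of orders of the edges (`le i e f` for edges `e`, `f` of
level `i`) in which two edges are comparable if and only if they have the same range. Thus it is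
a linear order on every `r⁻¹(v)`, and edges with different ranges are incomparable. -/
structure EdgeOrder (B : Diagram) where
  /-- the order relation on the edges of level `i` -/
  le : ∀ i, B.E i → B.E i → Prop
  refl : ∀ i e, le i e e
  trans : ∀ i e f g, le i e f → le i f g → le i e g
  antisymm : ∀ i e f, le i e f → le i f e → e = f
  comparable : ∀ i e f, (le i e f ∨ le i f e) ↔ B.r i e = B.r i f

variable {B : Diagram}

/-- `e` is maximal in its `r⁻¹`-class. -/
def IsMaxEdge (o : EdgeOrder B) (i : ℕ) (e : B.E i) : Prop := ∀ f, o.le i e f → f = e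

/-- `e` is minimal in its `r⁻¹`-class. -/
def IsMinEdge (o : EdgeOrder B) (i : ℕ) (e : B.E i) : Prop := ∀ f, o.le i f e → f = e

/-- `f` is the successor of `e` in its `r⁻¹`-class. -/
def IsSuccEdge (o : EdgeOrder B) (i : ℕ) (e f : B.E i) : Prop :=
  o.le i e f ∧ f ≠ e ∧ ∀ g, o.le i e g → g ≠ e → o.le i f g

/-- The set of the infinite maximal paths. -/
def maxPaths (o : EdgeOrder B) : Set (Path B) := {x | ∀ i, IsMaxEdge o i (x.1 i)}

/-- `y` is the image of `x` under the Vershik map: for the least `n` with `x_n` not maximal, `y_n`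
is the successor of `x_n`, `y_i = x_i` for `i > n`, and `y_i` is minimal for `i < n`. -/
def IsVershikImage (o : EdgeOrder B) (x y : Path B) : Prop :=
  ∃ n, (∀ i < n, IsMaxEdge o i (x.1 i)) ∧ ¬ IsMaxEdge o n (x.1 n) ∧
    IsSuccEdge o n (x.1 n) (y.1 n) ∧ (∀ i, n < i → y.1 i = x.1 i) ∧
    ∀ i < n, IsMinEdge o i (y.1 i)

/-- The order generates a Borel Vershik map: the Vershik map is well defined on the non-maximal
paths and extends to a Borel bijection of the path space onto itself. -/
def GeneratesBorelVershikMap (o : EdgeOrder B) : Prop :=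
  (∀ x ∉ maxPaths o, ∃! y, IsVershikImage o x y) ∧
    ∃ T : Path B ≃ Path B, Measurable T ∧ Measurable T.symm ∧
      ∀ x ∉ maxPaths o, IsVershikImage o x (T x)

/-- the order given by enumerations of the fibres -/
noncomputable def ord (ω : Om B) : EdgeOrder B where
  le i e f := B.r i e = B.r i f ∧ rk ω i e ≤ rk ω i f
  refl i e := ⟨rfl, le_rfl⟩
  trans i e f g h h' := ⟨h.1.trans h'.1, h.2.trans h'.2⟩
  antisymm i e f h h' := rk_inj ω h.1 (le_antisymm h.2 h'.2)
  comparable i e f := by
    constructor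
    · rintro (h | h)
      · exact h.1
      · exact h.1.symm
    · intro h
      rcases le_total (rk ω i e) (rk ω i f) with h1 | h1
      · exact Or.inl ⟨h, h1⟩
      · exact Or.inr ⟨h.symm, h1⟩

theorem isMax_iff (ω : Om B) (i : ℕ) (e : B.E i) : IsMaxEdge (ord ω) i e ↔ MaxE ω i e := by
  have h1 := rk_lt ω i e
  constructor
  · intro h
    have h2 := h (mx ω i (B.r i e)) ⟨(r_mx ω i _).symm, by
      have h3 := maxE_mx ω i (B.r i e)
      unfold MaxE at h3
      rw [r_mx] at h3
      omega⟩
    rw [← h2]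
    exact maxE_mx ω i _
  · rintro h f ⟨h2, h3⟩
    refine (rk_inj ω h2 ?_).symm
    have h4 := rk_lt ω i f
    unfold MaxE at h
    rw [h2] at h
    omega

theorem isMin_iff (ω : Om B) (i : ℕ) (e : B.E i) : IsMinEdge (ord ω) i e ↔ MaxE (rev ω) i e := by
  rw [maxE_rev]
  constructor
  · intro h
    obtain ⟨f, hf1, hf2⟩ := exists_rk ω i (B.r i e) (num_pos i _)
    have h2 := h f ⟨hf1, by omega⟩
    rw [← h2, hf2]
  · rintro h f ⟨h2, h3⟩
    exact rk_inj ω h2 (by omega)

theorem isSucc_iff (ω : Om B) (i : ℕ) (e f : B.E i) : IsSuccEdge (ord ω) i e f ↔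
    (B.r i e = B.r i f ∧ rk ω i f = rk ω i e + 1) := by
  constructor
  · rintro ⟨⟨h1, h2⟩, h3, h4⟩
    have hne : rk ω i f ≠ rk ω i e := fun h => h3 (rk_inj ω h1.symm h)
    have hlt := rk_lt ω i f
    rw [← h1] at hlt
    obtain ⟨g, hg1, hg2⟩ := exists_rk ω i (B.r i e) (k := rk ω i e + 1) (by omega)
    have h5 := h4 g ⟨hg1.symm, by omega⟩ (fun h => by rw [h] at hg2; omega)
    exact ⟨h1, by have := h5.2; omega⟩
  · rintro ⟨h1, h2⟩
    refine ⟨⟨h1, by omega⟩, fun h => by rw [h] at h2; omega, ?_⟩
    rintro g ⟨h3, h4⟩ h5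
    refine ⟨h1.symm.trans h3, ?_⟩
    have hne : rk ω i g ≠ rk ω i e := fun h => h5 (rk_inj ω h3.symm h)
    omega

theorem vershik_iff (ω : Om B) (x y : Path B) : IsVershikImage (ord ω) x y ↔ VR ω x y := by
  unfold IsVershikImage VR
  simp only [isMax_iff, isMin_iff, isSucc_iff]

theorem maxPaths_eq (ω : Om B) : maxPaths (ord ω) = sec (maxC B) ω := by
  ext x
  simp only [maxPaths, isMax_iff]
  rfl

/-- **MP_f8f5a4_an, Q1 (positive answer).** Every generalized Bratteli diagram admits an order
that generates a Borel Vershik map. -/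
theorem result (B : Diagram) : ∃ o : EdgeOrder B, GeneratesBorelVershikMap o := by
  obtain ⟨ω, T, hT⟩ := exists_ext B
  refine ⟨ord ω, ?_, T.toEquiv, T.measurable, T.symm.measurable, ?_⟩
  · intro x hx
    rw [maxPaths_eq] at hx
    obtain ⟨y, hy⟩ := exists_VR ω x hx
    refine ⟨y, (vershik_iff ω x y).2 hy, fun y' hy' => ?_⟩
    exact hy.unique ((vershik_iff ω x y').1 hy')
  · intro x hx
    rw [maxPaths_eq] at hx
    exact (vershik_iff ω x _).2 (hT x hx)

end Pool.Agent.Results.MP_f8f5a4_an.BorelVershikOrder
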